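import Mathlib

/-!
# Assigning residues to the jobs
-/

namespace Pool.Agent.R550.PWD

open Finset

/-- The load of block `B` by the first `m` jobs of period `> 1`. -/
def ex (k p r : ℕ → ℕ) (m B : ℕ) : ℕ :=
  ∑ j ∈ range m, if 1 < k j ∧ B % k j = r j then p j else 0

theorem ex_succ (k p r : ℕ → ℕ) (m B : ℕ) :
    ex k p r (m + 1) B = ex k p r m B + if 1 < k m ∧ B % k m = r m then p m else 0 := by
  unfold ex
  rw [sum_range_succ]

theorem ex_congr {k p r r' : ℕ → ℕ} {m : ℕ} (h : ∀ j < m, r j = r' j) (B : ℕ) :
    ex k p r m B = ex k p r' m B := by
  unfold ex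
  refine sum_congr rfl fun j hj => ?_
  rw [h j (mem_range.1 hj)]

/-- The loads are periodic. -/
theorem ex_mod {k p r : ℕ → ℕ} {m K : ℕ} (h : ∀ j < m, k j ∣ K) {B B' : ℕ}
    (hB : B % K = B' % K) : ex k p r m B = ex k p r m B' := by
  unfold ex
  refine sum_congr rfl fun j hj => ?_
  have h1 : B % k j = B' % k j := by
    rw [← Nat.mod_mod_of_dvd B (h j (mem_range.1 hj)), hB, Nat.mod_mod_of_dvd _ (h j (mem_range.1 hj))]
  rw [h1]

theorem card_class (k q r : ℕ) (hr : r < k) :
    ((range (q * k)).filter fun B => B % k = r).card = q := by
  have hk : 0 < k := by omega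
  induction q with
  | zero => simp
  | succ q ih =>
    have h1 : range ((q + 1) * k) = range (q * k) ∪ (Ico (q * k) ((q + 1) * k)) := by
      rw [range_eq_Ico, range_eq_Ico, Ico_union_Ico_eq_Ico (Nat.zero_le _)]
      exact Nat.mul_le_mul_right _ (by omega)
    have h2 : Disjoint (range (q * k)) (Ico (q * k) ((q + 1) * k)) := by
      rw [range_eq_Ico]
      exact Ico_disjoint_Ico_consecutive _ _ _
    rw [h1, filter_union, card_union_of_disjoint (disjoint_filter_filter h2), ih]
    have h3 : (Ico (q * k) ((q + 1) * k)).filter (fun B => B % k = r) = {q * k + r} := by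
      ext B
      simp only [mem_filter, mem_Ico, mem_singleton]
      constructor
      · rintro ⟨⟨h4, h5⟩, h6⟩
        obtain ⟨d, rfl⟩ := Nat.exists_eq_add_of_le h4
        have h7 : d < k := by
          have : (q + 1) * k = q * k + k := by ring
          omega
        rw [Nat.add_comm, Nat.add_mul_mod_self_right, Nat.mod_eq_of_lt h7] at h6
        omega
      · rintro rfl
        refine ⟨⟨by omega, ?_⟩, ?_⟩
        · have : (q + 1) * k = q * k + k := by ring
          omega
        · rw [Nat.add_comm, Nat.add_mul_mod_self_right, Nat.mod_eq_of_lt hr]
    rw [h3, card_singleton]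


/-- The sum of all loads in a period. -/
theorem sum_ex {k p r : ℕ → ℕ} {m K : ℕ} (h : ∀ j < m, k j ∣ K) (hr : ∀ j < m, r j < k j) :
    ∑ B ∈ range K, ex k p r m B = ∑ j ∈ range m, if 1 < k j then K / k j * p j else 0 := by
  unfold ex
  rw [sum_comm]
  refine sum_congr rfl fun j hj => ?_
  have hj' := mem_range.1 hj
  by_cases h1 : 1 < k j
  · simp only [h1, true_and, if_true]
    rw [← sum_filter, sum_const, smul_eq_mul]
    congr 1
    obtain ⟨q, hq⟩ := h j hj'
    have h2 : K / k j = q := by
      rw [hq]
      exact Nat.mul_div_cancel_left q (by omega)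
    rw [h2]
    have h3 : K = q * k j := by rw [hq]; ring
    rw [h3]
    exact card_class (k j) q (r j) (hr j hj')
  · simp [h1]

/-- **Nested greedy assignment.** -/
theorem assign {n K c : ℕ} {k p : ℕ → ℕ} (hK : 0 < K) (hc : 0 < c)
    (hk : ∀ j < n, 0 < k j) (hkK : ∀ j < n, k j ∣ K) (hdiv : ∀ i j, i ≤ j → j < n → k i ∣ k j)
    (hp : ∀ j < n, 0 < p j) (hpc : ∀ j < n, 1 < k j → p j ≤ c)
    (hdens : 4 * (∑ j ∈ range n, if 1 < k j then K / k j * p j else 0) < c * K) :
    ∀ m ≤ n, ∃ r : ℕ → ℕ, (∀ j < m, r j < k j) ∧ (∀ B, ex k p r m B ≤ c) ∧
      2 * c * ((range K).filter fun B => 0 < ex k p r m B).card ≤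
        4 * (∑ B ∈ range K, ex k p r m B) + c * K := by
  intro m
  induction m with
  | zero =>
    intro _
    refine ⟨fun _ => 0, fun j hj => absurd hj (Nat.not_lt_zero _), fun B => by simp [ex], ?_⟩
    simp [ex]
  | succ m ih =>
    intro hm
    obtain ⟨r, hr, hload, hinv⟩ := ih (by omega)
    have hmK : ∀ j < m, k j ∣ K := fun j hj => hkK j (by omega)
    have hkm : 0 < k m := hk m (by omega)
    have hpm : 0 < p m := hp m (by omega)
    -- extension by a residue
    have hext : ∀ ρ, ∀ B, ex k p (Function.update r m ρ) (m + 1) B =
        ex k p r m B + if 1 < k m ∧ B % k m = ρ then p m else 0 := by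
      intro ρ B
      rw [ex_succ, Function.update_self]
      congr 1
      refine ex_congr (fun j hj => ?_) B
      rw [Function.update_of_ne (by omega)]
    have hup : ∀ ρ, ρ < k m → ∀ j < m + 1, Function.update r m ρ j < k j := by
      intro ρ hρ j hj
      by_cases hjm : j = m
      · subst hjm
        simpa using hρ
      · rw [Function.update_of_ne hjm]
        exact hr j (by omega)
    by_cases h1 : 1 < k m
    swap
    · refine ⟨Function.update r m 0, hup 0 hkm, ?_, ?_⟩
      · intro B
        rw [hext]
        simpa [h1] using hload B
      · simp only [hext, h1, false_and, if_false, add_zero]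
        exact hinv
    -- the sum of the loads
    have hsum0 := sum_ex (p := p) hmK hr
    have hle : ∑ j ∈ range m, (if 1 < k j then K / k j * p j else 0) ≤
        ∑ j ∈ range n, if 1 < k j then K / k j * p j else 0 :=
      sum_le_sum_of_subset (range_subset_range.2 (by omega))
    -- all blocks of a class have the same load
    have hsame : ∀ B B', B % k m = B' % k m → ex k p r m B = ex k p r m B' :=
      fun B B' h => ex_mod (fun j hj => hdiv j m (by omega) (by omega)) h
    have hcls : ∀ ρ < k m, ((range K).filter fun B => B % k m = ρ).card = K / k m := by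
      intro ρ hρ
      obtain ⟨q, hq⟩ := hkK m (by omega)
      have h2 : K / k m = q := by
        rw [hq]
        exact Nat.mul_div_cancel_left q hkm
      rw [h2]
      have h3 : K = q * k m := by rw [hq]; ring
      rw [h3]
      exact card_class (k m) q ρ hρ
    have hsum1 : ∀ ρ < k m, ∑ B ∈ range K, ex k p (Function.update r m ρ) (m + 1) B =
        ∑ B ∈ range K, ex k p r m B + K / k m * p m := by
      intro ρ hρ
      simp only [hext, h1, true_and]
      rw [sum_add_distrib, ← sum_filter, sum_const, smul_eq_mul, hcls ρ hρ]
    by_cases hA : ∃ B0, 0 < ex k p r m B0 ∧ ex k p r m B0 + p m ≤ c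
    · obtain ⟨B0, hB0, hB1⟩ := hA
      have hρ : B0 % k m < k m := Nat.mod_lt _ hkm
      refine ⟨Function.update r m (B0 % k m), hup _ hρ, ?_, ?_⟩
      · intro B
        rw [hext]
        by_cases h2 : B % k m = B0 % k m
        · simp only [h1, h2, true_and, if_true]
          rw [hsame B B0 h2]
          exact hB1
        · simpa [h2] using hload B
      · rw [hsum1 _ hρ]
        have h3 : ((range K).filter fun B =>
            0 < ex k p (Function.update r m (B0 % k m)) (m + 1) B) =
            (range K).filter fun B => 0 < ex k p r m B := by
          refine filter_congr fun B _ => ?_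
          rw [hext]
          by_cases h2 : B % k m = B0 % k m
          · simp only [h1, h2, true_and, if_true]
            rw [hsame B B0 h2]
            constructor
            · intro _; exact hB0
            · intro _; omega
          · simp [h2]
        rw [h3]
        have : 0 ≤ K / k m * p m := Nat.zero_le _
        omega
    · push Not at hA
      -- an empty block
      have hN : ((range K).filter fun B => 0 < ex k p r m B).card < K := by
        by_contra hcon
        push Not at hcon
        have e1 : 2 * c * K ≤ 2 * c * ((range K).filter fun B => 0 < ex k p r m B).card :=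
          Nat.mul_le_mul_left _ hcon
        have e2 : 2 * c * K = c * K + c * K := by ring
        omega
      obtain ⟨B0, hB0K, hB0⟩ : ∃ B0 < K, ex k p r m B0 = 0 := by
        by_contra hcon
        push Not at hcon
        have : ((range K).filter fun B => 0 < ex k p r m B) = range K := by
          refine filter_true_of_mem fun B hB => ?_
          exact Nat.pos_of_ne_zero (hcon B (mem_range.1 hB))
        rw [this, card_range] at hN
        omega
      have hρ : B0 % k m < k m := Nat.mod_lt _ hkm
      refine ⟨Function.update r m (B0 % k m), hup _ hρ, ?_, ?_⟩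
      · intro B
        rw [hext]
        by_cases h2 : B % k m = B0 % k m
        · simp only [h1, h2, true_and, if_true]
          rw [hsame B B0 h2, hB0, zero_add]
          exact hpc m (by omega) h1
        · simpa [h2] using hload B
      · rw [hsum1 _ hρ]
        have h3 : ((range K).filter fun B =>
            0 < ex k p (Function.update r m (B0 % k m)) (m + 1) B) =
            ((range K).filter fun B => 0 < ex k p r m B) ∪
              (range K).filter fun B => B % k m = B0 % k m := by
          ext B
          simp only [mem_filter, mem_union, mem_range, hext, h1, true_and]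
          by_cases h2 : B % k m = B0 % k m
          · simp only [h2, if_true]
            constructor
            · rintro ⟨h4, _⟩
              exact Or.inr ⟨h4, trivial⟩
            · intro h4
              refine ⟨by tauto, by omega⟩
          · simp [h2]
        have h4 : (((range K).filter fun B => 0 < ex k p r m B) ∪
              (range K).filter fun B => B % k m = B0 % k m).card ≤
            ((range K).filter fun B => 0 < ex k p r m B).card + K / k m := by
          refine (card_union_le _ _).trans ?_
          rw [hcls _ hρ]
        rw [h3]
        set N := ((range K).filter fun B => 0 < ex k p r m B).card with hNdef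
        set Sm := ∑ B ∈ range K, ex k p r m B with hSdef
        set N' := (((range K).filter fun B => 0 < ex k p r m B) ∪
              (range K).filter fun B => B % k m = B0 % k m).card
        have h5 : 2 * c * N' ≤ 2 * c * N + 2 * c * (K / k m) := by
          calc 2 * c * N' ≤ 2 * c * (N + K / k m) := Nat.mul_le_mul_left _ h4
            _ = _ := by ring
        have h6 : 2 * (K / k m) ≤ K := by
          have := Nat.div_mul_le_self K (k m)
          have h7 : K / k m * 2 ≤ K / k m * k m := Nat.mul_le_mul_left _ h1
          omega
        by_cases h7 : 2 * p m ≤ c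
        · -- all nonempty blocks are more than half full
          have h8 : c * N ≤ 2 * Sm := by
            have h9 : ∀ B ∈ ((range K).filter fun B => 0 < ex k p r m B), c ≤ 2 * ex k p r m B := by
              intro B hB
              have h10 := hA B (mem_filter.1 hB).2
              omega
            have h11 := card_nsmul_le_sum ((range K).filter fun B => 0 < ex k p r m B)
              (fun B => 2 * ex k p r m B) c h9
            have h12 : ∑ B ∈ ((range K).filter fun B => 0 < ex k p r m B), 2 * ex k p r m B ≤
                ∑ B ∈ range K, 2 * ex k p r m B := sum_le_sum_of_subset (filter_subset _ _)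
            rw [← mul_sum (s := range K), ← hSdef] at h12
            rw [smul_eq_mul, ← hNdef] at h11
            have h13 : c * N = N * c := Nat.mul_comm _ _
            omega
          have h14 : 2 * c * (K / k m) ≤ c * K := by
            calc 2 * c * (K / k m) = c * (2 * (K / k m)) := by ring
              _ ≤ c * K := Nat.mul_le_mul_left _ h6
          have h15 : 2 * c * N = 2 * (c * N) := by ring
          have h16 : 0 ≤ K / k m * p m := Nat.zero_le _
          omega
        · have h8 : 2 * c * (K / k m) ≤ 4 * (K / k m * p m) := by
            calc 2 * c * (K / k m) ≤ 2 * (2 * p m) * (K / k m) :=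
                  Nat.mul_le_mul_right _ (Nat.mul_le_mul_left _ (by omega))
              _ = _ := by ring
          omega

end Pool.Agent.R550.PWD
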