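import Mathlib

/-!
# Pinwheel scheduling with durations
-/

namespace Pool.Agent.R550.PWD

/-- `V` (a list of the pairs `(f_i, p_i)`, `i ∈ [n]`) is an instance: `n ≥ 1`, all `f_i`, `p_i` are
positive and `f_1 ≤ ... ≤ f_n`. -/
structure IsInstance (V : List (ℕ × ℕ)) : Prop where
  ne : V ≠ []
  pos : ∀ x ∈ V, 0 < x.1 ∧ 0 < x.2
  sorted : ∀ (i : ℕ) (h : i + 1 < V.length), V[i].1 ≤ V[i + 1].1

/-- Frequency divisibility: `f_i ∣ f_{i+1}` for all `i`. -/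
def FreqDiv (V : List (ℕ × ℕ)) : Prop := ∀ (i : ℕ) (h : i + 1 < V.length), V[i].1 ∣ V[i + 1].1

/-- The density `ρ(V) = ∑ p_i / f_i`. -/
def density (V : List (ℕ × ℕ)) : ℚ := (V.map fun x => (x.2 : ℚ) / (x.1 : ℚ)).sum

open Classical in
/-- `c_i(V, S)` for a schedule `S` (a map from `ℕ` to the set of the jobs): the supremum of the
gaps `∑_{t=a+1}^{b} p_{S(t)}` over consecutive elements `a < b` of `S⁻¹(i)`, and `∞` if `S⁻¹(i)` is
finite. -/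
noncomputable def maxGap (V : List (ℕ × ℕ)) (S : ℕ → Fin V.length) (i : Fin V.length) : ℕ∞ :=
  if {t | S t = i}.Finite then ⊤ else
    sSup {g : ℕ∞ | ∃ a b : ℕ, a < b ∧ S a = i ∧ S b = i ∧ (∀ t, a < t → t < b → S t ≠ i) ∧
      g = ((∑ t ∈ Finset.Icc (a + 1) b, (V[S t]).2 : ℕ) : ℕ∞)}

/-- `V` is feasible: some schedule `S` has `c_i(V, S) ≤ f_i` for every job `i`. -/
def Feasible (V : List (ℕ × ℕ)) : Prop :=
  ∃ S : ℕ → Fin V.length, ∀ i, maxGap V S i ≤ ((V[i]).1 : ℕ∞)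

end Pool.Agent.R550.PWD
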