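import Mathlib

/-!
# The necessary condition
-/

namespace Pool.Agent.R550.PWD

open Finset

/-- If all jobs of the group `G` have gaps at most `F`, then the total duration of `G` together
with any other job is at most `F`. -/
theorem necessary {n : ℕ} {S : ℕ → Fin n} {p : Fin n → ℕ} {F : ℕ} (G : Finset (Fin n))
    (hG : G.Nonempty) (hinf : ∀ i, {t | S t = i}.Infinite)
    (hgap : ∀ i ∈ G, ∀ a b, a < b → S a = i → S b = i → (∀ t, a < t → t < b → S t ≠ i) →
      ∑ t ∈ Icc (a + 1) b, p (S t) ≤ F) {j : Fin n} (hj : j ∉ G) :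
    ∑ i ∈ G, p i + p j ≤ F := by
  classical
  have hfirst : ∀ i, ∃ e, S e = i := fun i => (hinf i).nonempty
  choose e he using hfirst
  obtain ⟨t, ht, htT⟩ := (hinf j).exists_gt (univ.sup e)
  have ht' : S t = j := ht
  have het : ∀ i, e i < t := fun i => lt_of_le_of_lt (le_sup (mem_univ i)) htT
  -- last occurrences
  set a : Fin n → ℕ := fun i => Nat.findGreatest (fun s => S s = i) t with hadef
  have ha : ∀ i, S (a i) = i := fun i =>
    Nat.findGreatest_spec (P := fun s => S s = i) (het i).le (he i)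
  have ha2 : ∀ i s, a i < s → s ≤ t → S s ≠ i := fun i s h1 h2 =>
    Nat.findGreatest_is_greatest h1 h2
  have ha3 : ∀ i, i ≠ j → a i < t := by
    intro i hi
    refine lt_of_le_of_ne (Nat.findGreatest_le t) fun h => hi ?_
    have h1 := ha i
    rw [h, ht'] at h1
    exact h1.symm
  -- next occurrences
  have hnext : ∀ i, ∃ s, t < s ∧ S s = i := by
    intro i
    obtain ⟨s, hs, hs'⟩ := (hinf i).exists_gt t
    exact ⟨s, hs', hs⟩
  obtain ⟨i0, hi0, hmin⟩ := exists_min_image G a hG
  have hb := Nat.find_spec (hnext i0)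
  set b := Nat.find (hnext i0) with hbdef
  have hb2 : ∀ s, t < s → s < b → S s ≠ i0 := fun s h1 h2 h3 =>
    Nat.find_min (hnext i0) h2 ⟨h1, h3⟩
  have hij : ∀ i ∈ G, i ≠ j := fun i hi h => hj (h ▸ hi)
  have h0 := ha3 i0 (hij i0 hi0)
  have hgap0 := hgap i0 hi0 (a i0) b (by omega) (ha i0) hb.2 (by
    intro s h1 h2
    by_cases h3 : s ≤ t
    · exact ha2 i0 s h1 h3
    · exact hb2 s (by omega) h2)
  refine le_trans ?_ hgap0
  -- the positions
  let σ : Fin n → ℕ := fun x => if x = j then t else if x = i0 then b else a x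
  have hσS : ∀ x, S (σ x) = x := by
    intro x
    simp only [σ]
    split_ifs with h1 h2
    · rw [ht', h1]
    · rw [hb.2, h2]
    · exact ha x
  have hσ : ∀ x ∈ insert j G, σ x ∈ Icc (a i0 + 1) b := by
    intro x hx
    rw [mem_Icc]
    simp only [σ]
    split_ifs with h1 h2
    · omega
    · omega
    · have hxG : x ∈ G := (mem_insert.1 hx).resolve_left h1
      have h3 := hmin x hxG
      have h4 := ha3 x h1
      have h5 : a x ≠ a i0 := by
        intro h5
        apply h2
        rw [← ha x, h5, ha i0]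
      omega
  have h6 : ∑ x ∈ insert j G, p x = ∑ s ∈ (insert j G).image σ, p (S s) := by
    rw [sum_image]
    · refine sum_congr rfl fun x _ => ?_
      rw [hσS]
    · intro x _ y _ hxy
      rw [← hσS x, ← hσS y]
      exact congrArg S hxy
  have h7 : ∑ i ∈ G, p i + p j = ∑ x ∈ insert j G, p x := by
    rw [sum_insert hj, Nat.add_comm]
  rw [h7, h6]
  refine sum_le_sum_of_subset fun s hs => ?_
  obtain ⟨x, hx, rfl⟩ := mem_image.1 hs
  exact hσ x hx

end Pool.Agent.R550.PWD
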