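import Mathlib

/-!
# The schedule given by an assignment of residues
-/

namespace Pool.Agent.R550.PWD

open Finset

section

variable (n : ℕ) (k p r : ℕ → ℕ)

/-- `N = B n + j` stands for the job `j` in the block `B`. -/
def Slot (N : ℕ) : Prop := (N / n) % k (N % n) = r (N % n)

instance : DecidablePred (Slot n k r) := fun _ => inferInstanceAs (Decidable (_ = _))

/-- The duration of a slot. -/
def dur (N : ℕ) : ℕ := if Slot n k r N then p (N % n) else 0

variable {n k p r}

theorem slot_add (hn : 0 < n) {B j : ℕ} (hj : j < n) : Slot n k r (B * n + j) ↔ B % k j = r j := by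
  unfold Slot
  have h1 : (B * n + j) / n = B := by
    rw [Nat.add_comm, Nat.add_mul_div_right _ _ hn, Nat.div_eq_of_lt hj, zero_add]
  have h2 : (B * n + j) % n = j := by
    rw [Nat.add_comm, Nat.add_mul_mod_self_right, Nat.mod_eq_of_lt hj]
  rw [h1, h2]

theorem mod_add (n : ℕ) {B j : ℕ} (hj : j < n) : (B * n + j) % n = j := by
  rw [Nat.add_comm, Nat.add_mul_mod_self_right, Nat.mod_eq_of_lt hj]

theorem dur_add (hn : 0 < n) {B j : ℕ} (hj : j < n) :
    dur n k p r (B * n + j) = if B % k j = r j then p j else 0 := by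
  unfold dur
  simp only [slot_add hn hj, mod_add n hj]

theorem block_le (hn : 0 < n) {F : ℕ}
    (hload : ∀ B, ∑ j ∈ range n, (if B % k j = r j then p j else 0) ≤ F) (B q : ℕ) :
    ∑ N ∈ range ((B + q) * n), dur n k p r N ≤ ∑ N ∈ range (B * n), dur n k p r N + q * F := by
  induction q with
  | zero => simp
  | succ q ih =>
    have h1 : (B + (q + 1)) * n = (B + q) * n + n := by ring
    rw [h1, sum_range_add]
    have h2 : ∑ x ∈ range n, dur n k p r ((B + q) * n + x) ≤ F := by
      refine le_trans (le_of_eq (sum_congr rfl fun j hj => ?_)) (hload (B + q))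
      exact dur_add hn (mem_range.1 hj)
    have h3 : (q + 1) * F = q * F + F := by ring
    omega

/-- The total duration of the slots in a window from one occurrence of the job `i` to the next. -/
theorem window_le (hn : 0 < n) {F : ℕ}
    (hload : ∀ B, ∑ j ∈ range n, (if B % k j = r j then p j else 0) ≤ F)
    (hdiv : ∀ i j, i ≤ j → j < n → k i ∣ k j) {B i : ℕ} (hi : i < n) :
    ∑ N ∈ Ioc (B * n + i) ((B + k i) * n + i), dur n k p r N ≤ k i * F := by
  have h1 := block_le hn hload B (k i)
  have h2 : ∀ C, ∑ N ∈ range (C * n + i + 1), dur n k p r N =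
      ∑ N ∈ range (C * n), dur n k p r N +
        ∑ j ∈ range (i + 1), if C % k j = r j then p j else 0 := by
    intro C
    rw [Nat.add_assoc, sum_range_add]
    congr 1
    refine sum_congr rfl fun j hj => ?_
    exact dur_add hn (by have := mem_range.1 hj; omega)
  have h3 : ∑ j ∈ range (i + 1), (if (B + k i) % k j = r j then p j else 0) =
      ∑ j ∈ range (i + 1), if B % k j = r j then p j else 0 := by
    refine sum_congr rfl fun j hj => ?_
    obtain ⟨d, hd⟩ := hdiv j i (by have := mem_range.1 hj; omega) hi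
    rw [hd, Nat.add_mul_mod_self_left]
  have h4 : ∑ N ∈ range (B * n + i + 1), dur n k p r N +
      ∑ N ∈ Ioc (B * n + i) ((B + k i) * n + i), dur n k p r N =
      ∑ N ∈ range ((B + k i) * n + i + 1), dur n k p r N := by
    have h5 : Ioc (B * n + i) ((B + k i) * n + i) =
        Ico (B * n + i + 1) ((B + k i) * n + i + 1) := by
      ext x
      simp only [mem_Ioc, mem_Ico]
      omega
    rw [h5, sum_range_add_sum_Ico]
    have : B * n ≤ (B + k i) * n := Nat.mul_le_mul_right _ (by omega)
    omega
  have h6 := h2 B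
  have h7 := h2 (B + k i)
  omega

theorem slot_infinite (hn : 0 < n) (hr : ∀ j < n, r j < k j) {i : ℕ} (hi : i < n) :
    {N | Slot n k r N ∧ N % n = i}.Infinite := by
  have hk : 0 < k i := by have := hr i hi; omega
  refine Set.infinite_of_injective_forall_mem (f := fun m : ℕ => (r i + k i * m) * n + i) ?_ ?_
  · intro a b h
    simp only [Nat.add_right_cancel_iff] at h
    have h1 := Nat.eq_of_mul_eq_mul_right hn h
    have h2 : k i * a = k i * b := by omega
    exact Nat.eq_of_mul_eq_mul_left hk h2
  · intro m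
    refine ⟨?_, mod_add n hi⟩
    rw [slot_add hn hi, Nat.add_mul_mod_self_left]
    exact Nat.mod_eq_of_lt (hr i hi)

/-- **The schedule.** -/
theorem exists_sched (hn : 0 < n) {F : ℕ} (hr : ∀ j < n, r j < k j)
    (hload : ∀ B, ∑ j ∈ range n, (if B % k j = r j then p j else 0) ≤ F)
    (hdiv : ∀ i j, i ≤ j → j < n → k i ∣ k j) :
    ∃ S : ℕ → Fin n, ∀ i : Fin n, {t | S t = i}.Infinite ∧
      ∀ a b, a < b → S a = i → S b = i → (∀ t, a < t → t < b → S t ≠ i) →
        ∑ t ∈ Icc (a + 1) b, p (S t) ≤ k i * F := by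
  have hinf : (setOf (Slot n k r)).Infinite :=
    (slot_infinite hn hr hn).mono fun N h => h.1
  have hmono := Nat.nth_strictMono hinf
  refine ⟨fun t => ⟨Nat.nth (Slot n k r) t % n, Nat.mod_lt _ hn⟩, fun i => ⟨?_, ?_⟩⟩
  · have h1 := slot_infinite hn hr i.2
    have h2 : {N | Slot n k r N ∧ N % n = i} ⊆ Nat.nth (Slot n k r) ''
        {t | (⟨Nat.nth (Slot n k r) t % n, Nat.mod_lt _ hn⟩ : Fin n) = i} := by
      rintro N ⟨hN, hNi⟩
      refine ⟨Nat.count (Slot n k r) N, ?_, Nat.nth_count hN⟩
      simp only [Set.mem_setOf_eq, Nat.nth_count hN]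
      exact Fin.ext hNi
    intro hfin
    exact h1 ((hfin.image _).subset h2)
  · intro a b hab ha hb hno
    have ha' : Nat.nth (Slot n k r) a % n = i := congrArg Fin.val ha
    set Na := Nat.nth (Slot n k r) a with hNa
    obtain ⟨B, hB⟩ : ∃ B, Na = B * n + i := ⟨Na / n, by
      rw [← ha', Nat.mul_comm]
      exact (Nat.div_add_mod Na n).symm⟩
    have hslot : Slot n k r Na := Nat.nth_mem_of_infinite hinf a
    have hslot' : Slot n k r ((B + k i) * n + i) := by
      rw [hB, slot_add hn i.2] at hslot
      rw [slot_add hn i.2]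
      simpa using hslot
    have hki : 0 < k i := by have := hr i i.2; omega
    have hlt : Na < (B + k i) * n + i := by
      rw [hB]
      have : B * n < (B + k i) * n := Nat.mul_lt_mul_of_pos_right (by omega) hn
      omega
    have hbt : b ≤ Nat.count (Slot n k r) ((B + k i) * n + i) := by
      by_contra hcon
      push Not at hcon
      refine hno _ ?_ hcon ?_
      · refine hmono.lt_iff_lt.1 ?_
        rw [Nat.nth_count hslot']
        exact hlt
      · refine Fin.ext ?_
        simp only [Nat.nth_count hslot']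
        exact mod_add n i.2
    have hnb : Nat.nth (Slot n k r) b ≤ (B + k i) * n + i := by
      have := hmono.monotone hbt
      rwa [Nat.nth_count hslot'] at this
    refine le_trans ?_ (window_le hn hload hdiv (B := B) i.2)
    have h1 : ∑ t ∈ Icc (a + 1) b, p (Nat.nth (Slot n k r) t % n) =
        ∑ t ∈ Icc (a + 1) b, dur n k p r (Nat.nth (Slot n k r) t) := by
      refine sum_congr rfl fun t _ => ?_
      unfold dur
      rw [if_pos (Nat.nth_mem_of_infinite hinf t)]
    have h2 : ∑ t ∈ Icc (a + 1) b, dur n k p r (Nat.nth (Slot n k r) t) =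
        ∑ N ∈ (Icc (a + 1) b).image (Nat.nth (Slot n k r)), dur n k p r N :=
      (sum_image fun x _ y _ h => hmono.injective h).symm
    simp only
    rw [h1, h2]
    refine sum_le_sum_of_subset fun N hN => ?_
    obtain ⟨t, ht, rfl⟩ := mem_image.1 hN
    rw [mem_Icc] at ht
    rw [mem_Ioc, ← hB]
    exact ⟨hmono (by omega), (hmono.monotone ht.2).trans hnb⟩

end

end Pool.Agent.R550.PWD
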