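import Pool.Agent.R550.PW.Defs
import Pool.Agent.R550.PW.Assign
import Pool.Agent.R550.PW.Sched
import Pool.Agent.R550.PW.Nec

/-!
# The criterion
-/

namespace Pool.Agent.R550.PWD

open Finset

/-- the smallest frequency -/
def fmin (V : List (ℕ × ℕ)) : ℕ := (V.getD 0 (1, 1)).1

/-- the total duration of the jobs of the smallest frequency -/
def pmin (V : List (ℕ × ℕ)) : ℕ := ((V.filter fun x => decide (x.1 = fmin V)).map fun x => x.2).sum

/-- The criterion. -/
def crit (V : List (ℕ × ℕ)) : Bool :=
  V.all fun x => decide (x.1 = fmin V) || decide (pmin V + x.2 ≤ fmin V)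

theorem filter_map_sum (V : List (ℕ × ℕ)) (F : ℕ) :
    ((V.filter fun x => decide (x.1 = F)).map fun x => x.2).sum =
      (V.map fun x => if x.1 = F then x.2 else 0).sum := by
  induction V with
  | nil => rfl
  | cons x V ih =>
    by_cases h : x.1 = F
    · simp [List.filter_cons, h, ih]
    · simp [List.filter_cons, h, ih]

theorem pmin_eq (V : List (ℕ × ℕ)) :
    pmin V = ∑ i : Fin V.length, if (V[i]).1 = fmin V then (V[i]).2 else 0 := by
  unfold pmin
  rw [filter_map_sum, ← Fin.sum_univ_fun_getElem]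
  rfl

theorem sum_range_getD {M : Type} [AddCommMonoid M] (V : List (ℕ × ℕ)) (d : ℕ × ℕ)
    (g : ℕ × ℕ → M) :
    ∑ j ∈ range V.length, g (V.getD j d) = ∑ i : Fin V.length, g V[i] := by
  rw [sum_range]
  refine sum_congr rfl fun i _ => ?_
  rw [List.getD_eq_getElem _ _ i.2]
  rfl

theorem dvd_of_le {V : List (ℕ × ℕ)} (hd : FreqDiv V) (i j : ℕ) (hij : i ≤ j)
    (hj : j < V.length) : (V.getD i (1, 1)).1 ∣ (V.getD j (1, 1)).1 := by
  obtain ⟨d, rfl⟩ := Nat.exists_eq_add_of_le hij
  clear hij
  induction d with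
  | zero => exact dvd_rfl
  | succ d ih =>
    refine (ih (by omega)).trans ?_
    have h1 := hd (i + d) (by omega)
    rw [List.getD_eq_getElem _ _ (by omega : i + d < V.length),
      List.getD_eq_getElem _ _ (by omega : i + (d + 1) < V.length)]
    exact h1

theorem maxGap_le_iff {V : List (ℕ × ℕ)} {S : ℕ → Fin V.length} {i : Fin V.length} {F : ℕ} :
    maxGap V S i ≤ (F : ℕ∞) ↔ {t | S t = i}.Infinite ∧
      ∀ a b, a < b → S a = i → S b = i → (∀ t, a < t → t < b → S t ≠ i) →
        ∑ t ∈ Icc (a + 1) b, (V[S t]).2 ≤ F := by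
  unfold maxGap
  by_cases h : {t | S t = i}.Finite
  · rw [if_pos h]
    simp [h]
  · rw [if_neg h, sSup_le_iff]
    constructor
    · intro h1
      refine ⟨h, fun a b hab ha hb hno => ?_⟩
      have := h1 _ ⟨a, b, hab, ha, hb, hno, rfl⟩
      exact_mod_cast this
    · rintro ⟨_, h1⟩ g ⟨a, b, hab, ha, hb, hno, rfl⟩
      exact_mod_cast h1 a b hab ha hb hno

theorem crit_of_feasible {V : List (ℕ × ℕ)} (hV : IsInstance V) (h : Feasible V) :
    crit V = true := by
  obtain ⟨S, hS⟩ := h
  have hn : 0 < V.length := List.length_pos_iff.2 hV.ne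
  simp only [crit, List.all_eq_true, Bool.or_eq_true, decide_eq_true_eq]
  intro x hx
  by_cases hxF : x.1 = fmin V
  · exact Or.inl hxF
  · right
    obtain ⟨j, hj, rfl⟩ := List.mem_iff_getElem.1 hx
    have h1 := necessary (S := S) (p := fun i => (V[i]).2) (F := fmin V)
      (univ.filter fun i : Fin V.length => (V[i]).1 = fmin V)
      ⟨⟨0, hn⟩, by
        rw [mem_filter]
        refine ⟨mem_univ _, ?_⟩
        unfold fmin
        rw [List.getD_eq_getElem _ _ hn]
        rfl⟩
      (fun i => (maxGap_le_iff.1 (hS i)).1)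
      (fun i hi => by
        have h2 := (maxGap_le_iff.1 (hS i)).2
        rw [(mem_filter.1 hi).2] at h2
        exact h2) (j := ⟨j, hj⟩) (by
        rw [mem_filter]
        rintro ⟨_, h3⟩
        exact hxF h3)
    rw [sum_filter, ← pmin_eq] at h1
    exact h1

theorem feasible_of_crit {V : List (ℕ × ℕ)} (hV : IsInstance V) (hd : FreqDiv V)
    (hρ : density V ≤ 1 / 4) (h : crit V = true) : Feasible V := by
  have hn : 0 < V.length := List.length_pos_iff.2 hV.ne
  set n := V.length with hndef
  set F := fmin V with hF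
  set P := pmin V with hP
  let k : ℕ → ℕ := fun j => (V.getD j (1, 1)).1 / F
  let p : ℕ → ℕ := fun j => (V.getD j (1, 1)).2
  have hpos : ∀ j < n, 0 < (V.getD j (1, 1)).1 ∧ 0 < (V.getD j (1, 1)).2 := by
    intro j hj
    rw [List.getD_eq_getElem _ _ hj]
    exact hV.pos _ (List.getElem_mem hj)
  have hF0 : 0 < F := (hpos 0 hn).1
  have hFdvd : ∀ j < n, F ∣ (V.getD j (1, 1)).1 := fun j hj => dvd_of_le hd 0 j (Nat.zero_le _) hj
  have hkF : ∀ j < n, (V.getD j (1, 1)).1 = k j * F := fun j hj =>
    (Nat.div_mul_cancel (hFdvd j hj)).symm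
  have hk : ∀ j < n, 0 < k j := by
    intro j hj
    have h1 := (hpos j hj).1
    rw [hkF j hj] at h1
    exact Nat.pos_of_mul_pos_right h1
  have hp : ∀ j < n, 0 < p j := fun j hj => (hpos j hj).2
  have hdiv : ∀ i j, i ≤ j → j < n → k i ∣ k j := by
    intro i j hij hj
    have h1 := dvd_of_le hd i j hij hj
    rw [hkF i (by omega), hkF j hj] at h1
    exact Nat.dvd_of_mul_dvd_mul_right hF0 h1
  set K := k (n - 1) with hKdef
  have hK : 0 < K := hk _ (by omega)
  have hkK : ∀ j < n, k j ∣ K := fun j hj => hdiv j (n - 1) (by omega) (by omega)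
  have hk1 : ∀ j < n, (¬ 1 < k j) ↔ (V.getD j (1, 1)).1 = F := by
    intro j hj
    have h1 := hk j hj
    rw [hkF j hj]
    constructor
    · intro h2
      have : k j = 1 := by omega
      rw [this, one_mul]
    · intro h2 h3
      have h4 : 2 * F ≤ k j * F := Nat.mul_le_mul_right _ h3
      omega
  -- the total duration of the first group
  have hPsum : P = ∑ j ∈ range n, if 1 < k j then 0 else p j := by
    have h1 := sum_range_getD V (1, 1) (fun x : ℕ × ℕ => if x.1 = fmin V then x.2 else 0)
    rw [hP, pmin_eq]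
    refine h1.symm.trans (sum_congr rfl fun j hj => ?_)
    have h2 := hk1 j (mem_range.1 hj)
    by_cases h3 : 1 < k j
    · rw [if_pos h3, if_neg (fun h4 => (h2.2 h4) h3)]
    · rw [if_neg h3, if_pos (h2.1 h3)]
  have hP0 : 0 < P := by
    rw [hPsum]
    refine lt_of_lt_of_le (hp 0 hn) ?_
    have h1 : ¬ 1 < k 0 := (hk1 0 hn).2 rfl
    have h2 := single_le_sum (f := fun j => if 1 < k j then 0 else p j)
      (fun j _ => Nat.zero_le _) (mem_range.2 hn)
    simpa [h1] using h2
  -- the density
  have hdens : 4 * (∑ j ∈ range n, K / k j * p j) ≤ K * F := by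
    have h1 : density V = ∑ j ∈ range n, ((K / k j * p j : ℕ) : ℚ) / ((K * F : ℕ) : ℚ) := by
      have h2 := sum_range_getD V (1, 1) (fun x : ℕ × ℕ => (x.2 : ℚ) / (x.1 : ℚ))
      unfold density
      rw [← Fin.sum_univ_fun_getElem]
      refine Eq.trans ?_ (h2.symm.trans (sum_congr rfl fun j hj => ?_))
      · rfl
      · have hj' := mem_range.1 hj
        obtain ⟨q, hq⟩ := hkK j hj'
        have h3 : K / k j = q := by
          rw [hq]
          exact Nat.mul_div_cancel_left q (hk j hj')
        have hq0 : 0 < q := by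
          rcases Nat.eq_zero_or_pos q with h4 | h4
          · rw [h4] at hq; omega
          · exact h4
        have h5 : (0 : ℚ) < k j := by exact_mod_cast hk j hj'
        have h6 : (0 : ℚ) < F := by exact_mod_cast hF0
        have h7 : (0 : ℚ) < q := by exact_mod_cast hq0
        simp only [hkF j hj']
        rw [h3, hq]
        push_cast
        change (p j : ℚ) / ((k j : ℚ) * F) = (q : ℚ) * (p j) / ((k j : ℚ) * q * F)
        field_simp
    rw [h1, ← sum_div, ← Nat.cast_sum] at hρ
    have h8 : (0 : ℚ) < ((K * F : ℕ) : ℚ) := by exact_mod_cast Nat.mul_pos hK hF0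
    rw [div_le_iff₀ h8] at hρ
    have h9 : (4 : ℚ) * ((∑ j ∈ range n, K / k j * p j : ℕ) : ℚ) ≤ ((K * F : ℕ) : ℚ) := by
      linarith
    exact_mod_cast h9
  have hsplit : ∑ j ∈ range n, K / k j * p j =
      (∑ j ∈ range n, if 1 < k j then K / k j * p j else 0) + K * P := by
    rw [hPsum, mul_sum, ← sum_add_distrib]
    refine sum_congr rfl fun j hj => ?_
    have hj' := mem_range.1 hj
    by_cases h3 : 1 < k j
    · simp [h3]
    · have h4 : k j = 1 := by have := hk j hj'; omega
      simp [h4]
  have hPF : P < F := by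
    by_contra hcon
    push Not at hcon
    have h1 : K * F ≤ K * P := Nat.mul_le_mul_left _ hcon
    have h2 : 0 < K * P := Nat.mul_pos hK hP0
    omega
  obtain ⟨r, hr, hload, _⟩ := assign (n := n) (K := K) (c := F - P) (k := k) (p := p) hK (by omega)
    hk hkK hdiv hp (by
      intro j hj h1
      simp only [crit, List.all_eq_true, Bool.or_eq_true, decide_eq_true_eq] at h
      have h2 := h (V.getD j (1, 1)) (by
        rw [List.getD_eq_getElem _ _ hj]
        exact List.getElem_mem hj)
      rcases h2 with h2 | h2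
      · exact absurd h1 ((hk1 j hj).2 h2)
      · have h3 : P + p j ≤ F := h2
        omega) (by
      have h1 : (F - P) * K = K * F - K * P := by
        rw [Nat.sub_mul, Nat.mul_comm F, Nat.mul_comm P]
      have h2 : 0 < K * P := Nat.mul_pos hK hP0
      omega) n le_rfl
  have hload' : ∀ B, ∑ j ∈ range n, (if B % k j = r j then p j else 0) ≤ F := by
    intro B
    have h1 : ∑ j ∈ range n, (if B % k j = r j then p j else 0) = P + ex k p r n B := by
      unfold ex
      rw [hPsum, ← sum_add_distrib]
      refine sum_congr rfl fun j hj => ?_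
      have hj' := mem_range.1 hj
      by_cases h3 : 1 < k j
      · simp [h3]
      · have h4 : k j = 1 := by have := hk j hj'; omega
        have h5 : r j = 0 := by have := hr j hj'; omega
        simp [h4, h5, Nat.mod_one]
    rw [h1]
    have := hload B
    omega
  obtain ⟨S, hS⟩ := exists_sched hn hr hload' hdiv
  refine ⟨S, fun i => ?_⟩
  rw [maxGap_le_iff]
  refine ⟨(hS i).1, fun a b hab ha hb hno => ?_⟩
  have h1 := (hS i).2 a b hab ha hb hno
  have h2 := hkF i i.2
  rw [List.getD_eq_getElem _ _ i.2] at h2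
  refine le_trans (le_of_eq (sum_congr rfl fun t _ => ?_)) (h1.trans (le_of_eq h2.symm))
  simp only [p]
  rw [List.getD_eq_getElem _ _ (S t).2]
  rfl

end Pool.Agent.R550.PWD
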