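import Pool.Agent.R550.PW.Main
import Pool.Agent.NPC.Classes
import Pool.Agent.NPC.Dec

/-!
# The criterion is checked in polynomial time
-/

namespace Pool.Agent.R550.PWD

open Pool.Agent.NPC

theorem poly_fmin : NPC.Poly fmin := by
  unfold fmin
  exact NPC.Poly.fst (NPC.Poly.getD NPC.Poly.id (NPC.Poly.const 0) (NPC.Poly.const (1, 1)))

theorem poly_pmin : NPC.Poly pmin := by
  unfold pmin
  refine NPC.Poly.sum (NPC.Poly.map (F := fun _ x => x.2) (NPC.Poly.filter
    (p := fun V x => decide (x.1 = fmin V)) NPC.Poly.id ?_) (NPC.Poly.snd (NPC.Poly.snd NPC.Poly.id)))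
  exact NPC.Poly.decide_eq (NPC.Poly.fst (NPC.Poly.snd NPC.Poly.id))
    (poly_fmin.comp (NPC.Poly.fst NPC.Poly.id))

theorem poly_crit : NPC.Poly crit := by
  unfold crit
  refine NPC.Poly.all (p := fun V x => decide (x.1 = fmin V) || decide (pmin V + x.2 ≤ fmin V))
    NPC.Poly.id ?_
  have h1 : NPC.Poly (fun q : List (ℕ × ℕ) × (ℕ × ℕ) => fmin q.1) :=
    poly_fmin.comp (NPC.Poly.fst NPC.Poly.id)
  have h2 : NPC.Poly (fun q : List (ℕ × ℕ) × (ℕ × ℕ) => pmin q.1) :=
    poly_pmin.comp (NPC.Poly.fst NPC.Poly.id)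
  exact NPC.Poly.or (NPC.Poly.decide_eq (NPC.Poly.fst (NPC.Poly.snd NPC.Poly.id)) h1)
    (NPC.Poly.decide_le (NPC.Poly.add h2 (NPC.Poly.snd (NPC.Poly.snd NPC.Poly.id))) h1)

/-- The decision algorithm on bit strings. -/
theorem exists_alg : ∃ A : List Bool → List Bool, PolyTime A ∧
    ∀ V : List (ℕ × ℕ), A (bits V) = [crit V] := by
  refine ⟨fun x => [match unbits (List (ℕ × ℕ)) x with
    | none => false
    | some V => crit V], ?_, fun V => ?_⟩
  · refine polyTime_of_poly ((NPC.Poly.optCases (g := fun _ => false) (h := fun _ V => crit V)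
      poly_unbits (NPC.Poly.const false) (poly_crit.comp (NPC.Poly.snd NPC.Poly.id))).congr
        fun x => ?_)
    cases unbits (List (ℕ × ℕ)) x <;> rfl
  · simp only [unbits_bits]

end Pool.Agent.R550.PWD
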